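import Pool.Agent.Helper70.GUM.St1
import Pool.Agent.Helper60.OG.Base

/-!
# Project GUM: module CH2
-/

set_option autoImplicit false

namespace Pool.Agent.Helper87.GUM

open Pool.Agent.Helper70.GUM Module OG UN
open scoped Classical

universe u v w z

theorem hCH2 (hPOW : StPOW.{u, v, w, z}) (hCH1 : StCH1.{u, v, w, z}) : StCH2.{u, v, w, z} := by
  intro k F R K _ _ _ _ _ σ _ _ _ _ _ _ hσ χ r x hC hS hB J Q hQm hQF hQl hQX hQJ hQr n
  have hP := (hPOW (K := K) hσ hC hS hB).1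
  set T : (Hei hσ → K) →ₗ[R] (Hei hσ → K) := XR r (ep x 1) with hT
  set D : (Hei hσ → K) →ₗ[R] (Hei hσ → K) := T - LinearMap.id with hD
  have hDa : ∀ f, D f = T f - f := fun f => rfl
  have hLD : ∀ (u : Hei hσ) (f : Hei hσ → K), Lt R u (D f) = D (Lt R u f) := by
    intro u f
    rw [hDa, hDa, map_sub, hT, hB.xrlt]
  have hDF : ∀ f ∈ Fun R K hσ χ, D f ∈ Fun R K hσ χ := fun f hf =>
    Submodule.sub_mem _ (hB.xrF _ f hf) hf
  have hDV : ∀ f ∈ VS hσ J, D f ∈ VS hσ J := fun f hf =>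
    Submodule.sub_mem _ (hB.xrV J _ f hf) hf
  -- injectivity of `D` on `Fun`
  have hinj : ∀ f ∈ Fun R K hσ χ, D f = 0 → f = 0 := by
    intro f hf h0
    have h1 := hP.zz' f hf
    have h2 : T f - f = 0 := h0
    rw [h2, map_zero] at h1
    funext g
    have h3 := congrFun h1 g
    rw [Pi.zero_apply, Pi.smul_apply, Algebra.smul_def, map_add, map_natCast, map_one] at h3
    rcases mul_eq_zero.1 h3.symm with h | h
    · exact absurd h hC.nz
    · exact h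
  set V : Submodule R (Hei hσ → K) := Fun R K hσ χ ⊓ VS hσ J with hV
  have hA := hCH1 hσ hC hS hB J (fun i => Q i ⊓ VS hσ J)
    (fun i j hij => inf_le_inf_right _ (hQm hij))
    (fun i => inf_le_inf_right _ (hQF i))
    (fun i f hf u => ⟨hQl i f hf.1 u, hB.ltV J u f hf.2⟩)
    (fun f hf => ⟨hQX f hf, hDV f hf.2⟩)
    (fun i a ha f hf => ⟨hQr i a ha f hf.1, Submodule.smul_mem _ _ hf.2⟩) n
  have hBB := hCH1 hσ hC hS hB J (fun i => (Q i).map D ⊔ V.map D)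
    (fun i j hij => sup_le_sup_right (Submodule.map_mono (hQm hij)) _)
    (by
      intro i
      refine sup_le ?_ ?_
      · rintro _ ⟨f, hf, rfl⟩
        exact ⟨hDF f (hQF i hf), hQJ i f hf⟩
      · rintro _ ⟨f, hf, rfl⟩
        exact ⟨hDF f hf.1, hDV f hf.2⟩)
    (by
      intro i f hf u
      obtain ⟨_, ⟨f₁, h₁, rfl⟩, _, ⟨f₂, h₂, rfl⟩, rfl⟩ := Submodule.mem_sup.1 hf
      rw [map_add, hLD, hLD]
      exact Submodule.add_mem_sup (Submodule.mem_map_of_mem (hQl i f₁ h₁ u))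
        (Submodule.mem_map_of_mem ⟨hB.ltF u f₂ h₂.1, hB.ltV J u f₂ h₂.2⟩))
    (fun f hf => Submodule.mem_sup_right (Submodule.mem_map_of_mem (f := D) hf))
    (by
      intro i a ha f hf
      obtain ⟨_, ⟨f₁, h₁, rfl⟩, _, ⟨f₂, h₂, rfl⟩, rfl⟩ := Submodule.mem_sup.1 hf
      rw [smul_add, ← map_smul, ← map_smul]
      exact Submodule.add_mem_sup (Submodule.mem_map_of_mem (hQr i a ha f₁ h₁))
        (Submodule.mem_map_of_mem (Submodule.smul_mem _ _ h₂))) n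
  refine steps_le_two Q (fun i => Q i ⊓ VS hσ J) (fun i => (Q i).map D ⊔ V.map D) 1 1 n ?_ hA hBB
  intro i h1 h2
  apply le_antisymm (hQm (Nat.le_succ i))
  intro f hf
  have h3 : D f ∈ (Q i).map D ⊔ V.map D := by
    have h2' : (Q i).map D ⊔ V.map D = (Q (i + 1)).map D ⊔ V.map D := h2
    rw [h2']
    exact Submodule.mem_sup_left (Submodule.mem_map_of_mem hf)
  obtain ⟨_, ⟨f₁, hf₁, rfl⟩, _, ⟨f₂, hf₂, rfl⟩, h4⟩ := Submodule.mem_sup.1 h3
  have h5 : f - f₁ - f₂ = 0 := by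
    apply hinj
    · exact Submodule.sub_mem _ (Submodule.sub_mem _ (hQF _ hf) (hQF _ hf₁)) hf₂.1
    · rw [map_sub, map_sub, ← h4]
      abel
  have h6 : f₂ = f - f₁ := (sub_eq_zero.1 h5).symm
  have h7 : f₂ ∈ Q (i + 1) ⊓ VS hσ J := by
    refine ⟨?_, hf₂.2⟩
    rw [h6]
    exact Submodule.sub_mem _ hf (hQm (Nat.le_succ i) hf₁)
  have h1' : Q i ⊓ VS hσ J = Q (i + 1) ⊓ VS hσ J := h1
  rw [← h1'] at h7
  have h8 : f = f₁ + f₂ := by rw [h6]; abel
  rw [h8]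
  exact Submodule.add_mem _ hf₁ h7.1

end Pool.Agent.Helper87.GUM
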